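import Pool.Agent.TH404.Tor.End
import Pool.Agent.H137R2.PFR.Final
set_option autoImplicit false

/-! Bound for the entropy of linear forms; a minimiser has zero doubling. -/

open scoped Classical

namespace Pool.Agent.TH404.Tor

open H137.PFR hiding dist

variable {V : Type*} [AddCommGroup V] [Fintype V] {m : ℕ} [NeZero m] [Module (ZMod m) V]

variable {η : ℝ} {μ₀ p₁ p₂ : V → ℝ}

omit [Module (ZMod m) V] in
theorem prod_pp (h : Mn η μ₀ p₁ p₂) :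
    ∏ i : Idx m, mkL (law_pp (m := m) h.l1 h.l2 i) = cell h ^ (m * (m * 2 ^ 8)) := by
  rw [Fintype.prod_prod_type]
  have h1 : ∀ x : ZMod m × ZMod m × (Fin 8 → Bool), ∏ y : Bool,
      mkL (law_pp (m := m) h.l1 h.l2 (x, y)) = cell h := by
    intro x
    rw [Fintype.prod_bool, mul_comm]
    rfl
  rw [Finset.prod_congr rfl fun x _ => h1 x, Finset.prod_const, Finset.card_univ]
  congr 1
  simp [ZMod.card]

theorem L_eq_Ln (c : Idx m → ZMod m) : (L c : (Idx m → V) → V) = Ln (fun i => (c i).val) := by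
  funext x
  unfold L Ln
  refine Finset.sum_congr rfl fun i _ => ?_
  rw [← Nat.cast_smul_eq_nsmul (ZMod m), ZMod.natCast_zmod_val]

theorem H_L_le (h : Mn η μ₀ p₁ p₂) (t : ℕ) (ht : 1 ≤ t) (hm : m ≤ 2 ^ t)
    (hη : η * (100 * t) ≤ 1) (c : Idx m → ZMod m) :
    H (pl (pp m p₁ p₂)) (L c : (Idx m → V) → V) ≤
      (ent p₁ + ent p₂) / 2 + 41 * t * D2 p₁ p₂ := by
  have hp : ∀ i, Law (pp m p₁ p₂ i) := law_pp h.l1 h.l2
  have hk := h.k_nonneg
  have hη0 := h.pos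
  have ht' : (1 : ℝ) ≤ t := by exact_mod_cast ht
  set J := 2 * t + 8 with hJ
  set Q := cell h ^ (2 ^ J) with hQ
  obtain ⟨n, hn⟩ : ∃ n, 2 ^ J = n + 1 := ⟨2 ^ J - 1, by
    have : 0 < 2 ^ J := by positivity
    omega⟩
  have g1 := growth_pow h n
  rw [← hn, ← hQ] at g1
  have g2 := growth_two h J
  rw [← hQ] at g2
  have hJ1 : η * (J : ℝ) ≤ 1 := by
    rw [hJ]; push_cast
    nlinarith
  have g3 := pow_le_three hη0 J hJ1
  have hJk : 0 ≤ ((J : ℝ) + 1) * D2 p₁ p₂ := by positivity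
  have g4 : Q.e - (ent p₁ + ent p₂) / 2 ≤ 3 * (J + 1) * D2 p₁ p₂ := by
    refine g2.trans ?_
    have : (1 + η) ^ J * (((J : ℝ) + 1) * D2 p₁ p₂) ≤ 3 * (((J : ℝ) + 1) * D2 p₁ p₂) :=
      mul_le_mul_of_nonneg_right g3 hJk
    nlinarith [this]
  have hJ2 : η * (3 * ((J : ℝ) + 1)) ≤ 1 := by
    rw [hJ]; push_cast
    nlinarith
  have g5 : (Q * Q).e - Q.e ≤ 2 * D2 p₁ p₂ := by
    have a1 : η * (Q.e - (ent p₁ + ent p₂) / 2) ≤ η * (3 * (J + 1) * D2 p₁ p₂) :=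
      mul_le_mul_of_nonneg_left g4 hη0
    have a2 : η * (3 * ((J : ℝ) + 1) * D2 p₁ p₂) ≤ 1 * D2 p₁ p₂ := by
      rw [← mul_assoc]
      exact mul_le_mul_of_nonneg_right hJ2 hk
    linarith
  have hcard : m * (m * 2 ^ 8) ≤ 2 ^ J := by
    rw [hJ]
    calc m * (m * 2 ^ 8) ≤ 2 ^ t * (2 ^ t * 2 ^ 8) := by gcongr
      _ = 2 ^ (2 * t + 8) := by ring
  have hs : ∀ s : Finset (Idx m), (Q * lw (law_pl hp) (fun x : Idx m → V => ∑ i ∈ s, x i)).e - Q.e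
      ≤ 2 * D2 p₁ p₂ := by
    intro s
    exact (cost_partial hp (cell h) _ _ hcard (prod_pp h) s).trans g5
  have hc : ∀ i, (c i).val < 2 ^ t := fun i => (ZMod.val_lt (c i)).trans_le hm
  have h1 := H_Ln_le hp Q (2 * D2 p₁ p₂) (by positivity) g5 hs t ht (fun i => (c i).val) hc
  rw [L_eq_Ln]
  refine h1.trans ?_
  have hJ3 : (J : ℝ) = 2 * t + 8 := by rw [hJ]; push_cast; ring
  rw [hJ3] at g4
  nlinarith [g4, hk, ht', mul_nonneg (sub_nonneg.2 ht') hk]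

/-- a minimiser has zero doubling -/
theorem min_zero (t : ℕ) (ht : 1 ≤ t) (hm : m ≤ 2 ^ t) (h : Mn (1 / (20500 * t)) μ₀ p₁ p₂) :
    D2 p₁ p₂ = 0 := by
  have hk := h.k_nonneg
  have ht' : (1 : ℝ) ≤ t := by exact_mod_cast ht
  have ht0 : (0 : ℝ) < t := by linarith
  have h1 := H_L_le (V := V) (m := m) h t ht hm (by
    rw [one_div, inv_mul_le_iff₀ (by positivity)]
    linarith)
  refine k_zero (m := m) h (Bd := 41 * t * D2 p₁ p₂) h1 (by positivity) ?_ ?_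
  · rw [div_le_iff₀ (by positivity)]
    linarith
  · have : 500 * (1 / (20500 * (t : ℝ)) * (41 * t * D2 p₁ p₂)) = D2 p₁ p₂ := by
      field_simp
      norm_num
    rw [this]

/-- entropic Marton theorem for `m`-torsion groups -/
theorem entropic_marton (t : ℕ) (ht : 1 ≤ t) (hm : m ≤ 2 ^ t) {μ : V → ℝ} (hμ : Law μ) :
    ∃ G : AddSubgroup V, entMod μ G ≤ 20502 * t * (ent (conv μ μ) - ent μ) ∧
      Real.log (Nat.card G) - ent μ ≤ 20502 * t * (ent (conv μ μ) - ent μ) := by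
  have ht' : (1 : ℝ) ≤ t := by exact_mod_cast ht
  have ht0 : (0 : ℝ) < t := by linarith
  obtain ⟨μ₁, μ₂, hμ₁, hμ₂, hmin⟩ := exists_minE (1 / (20500 * (t : ℝ))) μ
  have h : Mn (1 / (20500 * (t : ℝ))) μ μ₁ μ₂ := ⟨hμ, hμ₁, hμ₂, by positivity, hmin⟩
  have hd := min_zero (m := m) t ht hm h
  obtain ⟨G, hG1, he1, hG2, he2⟩ := hundred hμ₁ hμ₂ hd
  refine ⟨G, ?_⟩
  have htau := hmin μ μ hμ hμ
  unfold tauE at htau
  rw [hd] at htau
  have hκ : D2 μ μ = ent (conv μ μ) - ent μ := by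
    unfold D2
    ring
  have hκ0 : 0 ≤ D2 μ μ := dist_nonneg hμ hμ
  have hsum : D2 μ μ₁ + D2 μ μ₂ ≤ 20502 * t * D2 μ μ := by
    have h1 : 1 / (20500 * (t : ℝ)) * (D2 μ μ₁ + D2 μ μ₂) ≤
        D2 μ μ + 1 / (20500 * (t : ℝ)) * (D2 μ μ + D2 μ μ) := by linarith
    rw [one_div, inv_mul_le_iff₀ (by positivity)] at h1
    have h2 : 20500 * (t : ℝ) * (D2 μ μ + (20500 * (t : ℝ))⁻¹ * (D2 μ μ + D2 μ μ)) =
        20500 * t * D2 μ μ + 2 * D2 μ μ := by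
      field_simp
      ring
    rw [h2] at h1
    nlinarith
  have key : ∀ ν : V → ℝ, Law ν → (∀ h ∈ G, ∀ x, ν (x + h) = ν x) →
      ent ν = Real.log (Nat.card G) → 2 * D2 μ ν ≤ 20502 * t * D2 μ μ →
      entMod μ G ≤ 20502 * t * (ent (conv μ μ) - ent μ) ∧
      Real.log (Nat.card G) - ent μ ≤ 20502 * t * (ent (conv μ μ) - ent μ) := by
    intro ν hν hinv hent hdist
    have e1 := entMod_add_log_le hμ hν G hinv
    have e2 := ent_le_entMod hμ G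
    have e3 : 0 ≤ entMod μ G := H_nonneg hμ _
    have e4 : D2 μ ν = ent (conv μ ν) - ent μ / 2 - ent ν / 2 := rfl
    rw [hent] at e4
    rw [hκ] at hdist
    constructor <;> linarith
  rcases le_total (D2 μ μ₁) (D2 μ μ₂) with h | h
  · exact key μ₁ hμ₁ hG1 he1 (by linarith)
  · exact key μ₂ hμ₂ hG2 he2 (by linarith)

end Pool.Agent.TH404.Tor
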