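import Pool.Agent.H137R2.PFR.Minim
import Pool.Agent.H137R2.PFR.ExistsMin
import Pool.Agent.H137R2.PFR.Kvm
import Pool.Agent.H137R2.PFR.Indep
set_option autoImplicit false

/-! The functional `tau` with a general parameter `η`, existence of minimisers, averaging. -/

open scoped Classical

namespace Pool.Agent.TH404.Tor

open H137.PFR hiding dist

variable {Ω Ω' α β γ δ : Type*} [Fintype Ω] [Fintype Ω'] [Fintype α] [Fintype β] [Fintype γ]
  [Fintype δ]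

variable {V : Type*} [AddCommGroup V] [Fintype V]

/-- `H(X+Y) - H(X)/2 - H(Y)/2` for independent `X ~ μ`, `Y ~ ν` -/
noncomputable def D2 (μ ν : V → ℝ) : ℝ := ent (conv μ ν) - ent μ / 2 - ent ν / 2

/-- the functional with parameter `η` -/
noncomputable def tauE (η : ℝ) (μ₀ μ ν : V → ℝ) : ℝ := D2 μ ν + η * (D2 μ₀ μ + D2 μ₀ ν)

theorem exists_minE (η : ℝ) (μ₀ : V → ℝ) : ∃ μ₁ μ₂ : V → ℝ, Law μ₁ ∧ Law μ₂ ∧
    ∀ μ ν : V → ℝ, Law μ → Law ν → tauE η μ₀ μ₁ μ₂ ≤ tauE η μ₀ μ ν := by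
  have hc : IsCompact ((stdSimplex ℝ V) ×ˢ (stdSimplex ℝ V)) :=
    (isCompact_stdSimplex ℝ V).prod (isCompact_stdSimplex ℝ V)
  have hne : ((stdSimplex ℝ V) ×ˢ (stdSimplex ℝ V)).Nonempty :=
    ⟨(Pi.single 0 1, Pi.single 0 1), single_mem_stdSimplex ℝ 0, single_mem_stdSimplex ℝ 0⟩
  have hcont : Continuous (fun p : (V → ℝ) × (V → ℝ) => tauE η μ₀ p.1 p.2) := by
    unfold tauE
    have h0 : Continuous (fun _ : (V → ℝ) × (V → ℝ) => μ₀) := continuous_const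
    exact (D_continuous_dist continuous_fst continuous_snd).add
      (((D_continuous_dist h0 continuous_fst).add
        (D_continuous_dist h0 continuous_snd)).const_mul η)
  obtain ⟨p, hp, hmin⟩ := hc.exists_isMinOn hne hcont.continuousOn
  refine ⟨p.1, p.2, (D_law_iff _).2 hp.1, (D_law_iff _).2 hp.2, fun μ ν hμ hν => ?_⟩
  exact hmin (a := (μ, ν)) ⟨(D_law_iff _).1 hμ, (D_law_iff _).1 hν⟩

theorem minimalityE {η : ℝ} {μ₀ : V → ℝ} (h0 : Law μ₀) {t : ℝ}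
    (ht : ∀ μ ν : V → ℝ, Law μ → Law ν → t ≤ tauE η μ₀ μ ν)
    {w : Ω → ℝ} (hw : Law w) (X Y : Ω → V) (C : Ω → γ) (hCI : CI w X Y C) :
    t ≤ (H w (fun ω => (X ω + Y ω, C ω)) - H w C)
      - (H w (fun ω => (X ω, C ω)) - H w C) / 2 - (H w (fun ω => (Y ω, C ω)) - H w C) / 2
      + η * ((E0 μ₀ w X C - H w C) - ent μ₀ / 2 - (H w (fun ω => (X ω, C ω)) - H w C) / 2
        + ((E0 μ₀ w Y C - H w C) - ent μ₀ / 2 - (H w (fun ω => (Y ω, C ω)) - H w C) / 2)) := by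
  have hp := law_push hw C
  have e1 : H w (fun ω => (X ω + Y ω, C ω)) - H w C =
      ∑ c, push w C c * ent (conv (cnd w X C c) (cnd w Y C c)) := by
    rw [H_chain hw (fun ω => X ω + Y ω) C, add_sub_cancel_left]
    refine Finset.sum_congr rfl fun c _ => ?_
    by_cases hc : push w C c = 0
    · rw [hc, zero_mul, zero_mul]
    · rw [B_cnd_add X Y C hCI hc]
  have e2 : ∀ X : Ω → V, H w (fun ω => (X ω, C ω)) - H w C =
      ∑ c, push w C c * ent (cnd w X C c) := by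
    intro X
    rw [H_chain hw X C, add_sub_cancel_left]
  have e3 : ∀ X : Ω → V, E0 μ₀ w X C - H w C = ∑ c, push w C c * ent (conv μ₀ (cnd w X C c)) := by
    intro X
    unfold E0
    rw [H_chain (law_prod h0 hw) (fun p : V × Ω => p.1 + X p.2) (fun p => C p.2),
      H_prod_snd h0 hw C, add_sub_cancel_left]
    refine Finset.sum_congr rfl fun c _ => ?_
    rw [B_push_snd h0]
    by_cases hc : push w C c = 0
    · rw [hc, zero_mul, zero_mul]
    · rw [B_cnd_E0 h0 w X C hc]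
  have e4 : ∑ c, push w C c * (ent μ₀) = ent μ₀ := by
    rw [← Finset.sum_mul, hp.2, one_mul]
  have e5 : t = ∑ c, push w C c * t := by
    rw [← Finset.sum_mul, hp.2, one_mul]
  have e6 : ∑ c, push w C c * t ≤
      ∑ c, push w C c * tauE η μ₀ (cnd w X C c) (cnd w Y C c) := by
    refine Finset.sum_le_sum fun c _ => ?_
    by_cases hc : push w C c = 0
    · rw [hc, zero_mul, zero_mul]
    · exact mul_le_mul_of_nonneg_left (ht _ _ (law_cnd hw X C hc) (law_cnd hw Y C hc)) (hp.1 c)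
  rw [e1, e2, e2, e3, e3, e5]
  refine e6.trans (le_of_eq ?_)
  conv_rhs => rw [← e4]
  simp only [Finset.sum_div, ← Finset.sum_sub_distrib, ← Finset.sum_add_distrib, Finset.mul_sum]
  refine Finset.sum_congr rfl fun c _ => ?_
  unfold tauE D2
  ring

/-- data of a minimiser -/
structure Mn (η : ℝ) (μ₀ p₁ p₂ : V → ℝ) : Prop where
  l0 : Law μ₀
  l1 : Law p₁
  l2 : Law p₂
  pos : 0 ≤ η
  min : ∀ μ ν : V → ℝ, Law μ → Law ν → tauE η μ₀ p₁ p₂ ≤ tauE η μ₀ μ ν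

theorem D2_comm (μ ν : V → ℝ) : D2 μ ν = D2 ν μ := by
  unfold D2
  rw [conv_comm]
  ring

theorem tauE_comm (η : ℝ) (μ₀ μ ν : V → ℝ) : tauE η μ₀ μ ν = tauE η μ₀ ν μ := by
  unfold tauE
  rw [D2_comm μ ν]
  ring

theorem Mn.symm {η : ℝ} {μ₀ p₁ p₂ : V → ℝ} (h : Mn η μ₀ p₁ p₂) : Mn η μ₀ p₂ p₁ :=
  ⟨h.l0, h.l2, h.l1, h.pos, fun μ ν hμ hν => by
    rw [tauE_comm]; exact h.min μ ν hμ hν⟩

theorem Mn.k_nonneg {η : ℝ} {μ₀ p₁ p₂ : V → ℝ} (h : Mn η μ₀ p₁ p₂) : 0 ≤ D2 p₁ p₂ :=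
  dist_nonneg h.l1 h.l2

/-- `E0` conditional on more is smaller -/
theorem E0_mono {μ₀ : V → ℝ} (h0 : Law μ₀) {w : Ω → ℝ} (hw : Law w) (U : Ω → V) (Z : Ω → γ)
    (S : Ω → δ) : E0 μ₀ w U (fun ω => (Z ω, S ω)) - H w (fun ω => (Z ω, S ω)) ≤
      E0 μ₀ w U S - H w S := by
  have hp := law_prod h0 hw
  have h3 := H_submod hp (fun p : V × Ω => p.1 + U p.2) (fun p => Z p.2) (fun p => S p.2)
  have h4 : H (prod μ₀ w) (fun p : V × Ω => S p.2) = H w S := H_prod_snd h0 hw S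
  have h5 : H (prod μ₀ w) (fun p : V × Ω => (Z p.2, S p.2)) = H w (fun ω => (Z ω, S ω)) :=
    H_prod_snd h0 hw (fun ω => (Z ω, S ω))
  rw [h4, h5] at h3
  have h6 : E0 μ₀ w U (fun ω => (Z ω, S ω)) =
    H (prod μ₀ w) (fun p : V × Ω => (p.1 + U p.2, Z p.2, S p.2)) := rfl
  have h7 : E0 μ₀ w U S = H (prod μ₀ w) (fun p : V × Ω => (p.1 + U p.2, S p.2)) := rfl
  rw [h6, h7]
  linarith

end Pool.Agent.TH404.Tor
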