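import Pool.Agent.TH404.Tor.Ind
set_option autoImplicit false

/-! The fibring inequality for a minimiser. -/

open scoped Classical

namespace Pool.Agent.TH404.Tor

open H137.PFR hiding dist

variable {Ω Ω' α β γ δ : Type*} [Fintype Ω] [Fintype Ω'] [Fintype α] [Fintype β] [Fintype γ]
  [Fintype δ]

variable {V : Type*} [AddCommGroup V] [Fintype V]

variable {η : ℝ} {μ₀ p₁ p₂ : V → ℝ}

theorem fib (h : Mn η μ₀ p₁ p₂) {w : Ω → ℝ} (hw : Law w) (P1 P2 B1 B2 : Ω → V) (φ : V →+ V)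
    (i0 : Ind w (fun ω => (P1 ω, B1 ω)) (fun ω => (P2 ω, B2 ω)))
    (i1 : Ind w P1 B1) (i2 : Ind w P2 B2) (hP1 : push w P1 = p₁) (hP2 : push w P2 = p₂) :
    H w (fun ω => φ (P1 ω) + B1 ω) + H w (fun ω => φ (P2 ω) + B2 ω) + D2 p₁ p₂
      + (ent p₁ + ent p₂) / 2
      - (1 + η) / 2 * ((H w (fun ω => φ (P1 ω) + B1 ω) - H w B1)
        + (H w (fun ω => φ (P2 ω) + B2 ω) - H w B2)) ≤
    H w (fun ω => (P1 ω + P2 ω, (φ (P1 ω) + B1 ω, φ (P2 ω) + B2 ω))) := by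
  set C1 : Ω → V := fun ω => φ (P1 ω) + B1 ω with hC1
  set C2 : Ω → V := fun ω => φ (P2 ω) + B2 ω with hC2
  have hI : Ind w (fun ω => (P1 ω, C1 ω)) (fun ω => (P2 ω, C2 ω)) :=
    i0.comp (fun q : V × V => (q.1, φ q.1 + q.2)) (fun q : V × V => (q.1, φ q.1 + q.2))
  have hmain := minimalityE h.l0 h.min hw P1 P2 (fun ω => (C1 ω, C2 ω)) hI.CI
  have e0 : H w P1 = ent p₁ := by rw [← hP1]; rfl
  have e0' : H w P2 = ent p₂ := by rw [← hP2]; rfl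
  have e1 : H w (fun ω => (P1 ω, (C1 ω, C2 ω))) = ent p₁ + H w B1 + H w C2 := by
    have a1 : H w (fun ω => (P1 ω, (C1 ω, C2 ω))) = H w (fun ω => ((P1 ω, B1 ω), C2 ω)) :=
      H_eq hw (fun q => ((q.1, q.2.1 - φ q.1), q.2.2)) (fun q => (q.1.1, (φ q.1.1 + q.1.2, q.2)))
        (fun ω => by simp [hC1]) (fun ω => by simp [hC1])
    have a2 : Ind w (fun ω => (P1 ω, B1 ω)) C2 :=
      i0.comp (fun q => q) (fun q : V × V => φ q.1 + q.2)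
    rw [a1, a2.H hw, i1.H hw, e0]
  have e2 : H w (fun ω => (P2 ω, (C1 ω, C2 ω))) = ent p₂ + H w B2 + H w C1 := by
    have a1 : H w (fun ω => (P2 ω, (C1 ω, C2 ω))) = H w (fun ω => (C1 ω, (P2 ω, B2 ω))) :=
      H_eq hw (fun q => (q.2.1, (q.1, q.2.2 - φ q.1))) (fun q => (q.2.1, (q.1, φ q.2.1 + q.2.2)))
        (fun ω => by simp [hC2]) (fun ω => by simp [hC2])
    have a2 : Ind w C1 (fun ω => (P2 ω, B2 ω)) :=
      i0.comp (fun q : V × V => φ q.1 + q.2) (fun q => q)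
    rw [a1, a2.H hw, i2.H hw, e0']
    ring
  have e3 : H w (fun ω => (C1 ω, C2 ω)) = H w C1 + H w C2 := by
    have a2 : Ind w C1 C2 := hI.comp (fun q => q.2) (fun q => q.2)
    exact a2.H hw
  have e4 : E0 μ₀ w P1 (fun ω => (C1 ω, C2 ω)) - H w (fun ω => (C1 ω, C2 ω)) ≤
      ent (conv μ₀ p₁) := by
    have a1 := E0_cond_le h.l0 hw P1 (fun ω => (C1 ω, C2 ω))
    rwa [E0_push h.l0 hw, hP1] at a1
  have e5 : E0 μ₀ w P2 (fun ω => (C1 ω, C2 ω)) - H w (fun ω => (C1 ω, C2 ω)) ≤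
      ent (conv μ₀ p₂) := by
    have a1 := E0_cond_le h.l0 hw P2 (fun ω => (C1 ω, C2 ω))
    rwa [E0_push h.l0 hw, hP2] at a1
  rw [e1, e2] at hmain
  have e6 := mul_le_mul_of_nonneg_left e4 h.pos
  have e7 := mul_le_mul_of_nonneg_left e5 h.pos
  unfold tauE at hmain
  have d1 : D2 μ₀ p₁ = ent (conv μ₀ p₁) - ent μ₀ / 2 - ent p₁ / 2 := rfl
  have d2 : D2 μ₀ p₂ = ent (conv μ₀ p₂) - ent μ₀ / 2 - ent p₂ / 2 := rfl
  rw [d1, d2] at hmain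
  rw [e3] at hmain e6 e7
  nlinarith [hmain, e6, e7]

/-- entropy of the sum of the two basic variables -/
theorem H_sum_basic {w : Ω → ℝ} {P1 P2 : Ω → V} (i : Ind w P1 P2) (hP1 : push w P1 = p₁)
    (hP2 : push w P2 = p₂) :
    H w (fun ω => P1 ω + P2 ω) = D2 p₁ p₂ + (ent p₁ + ent p₂) / 2 := by
  have h1 := i.push_add
  unfold H
  rw [h1, hP1, hP2]
  unfold D2
  ring

/-- growth of the doubling -/
theorem fib_growth (h : Mn η μ₀ p₁ p₂) {w : Ω → ℝ} (hw : Law w) (P1 P2 B1 B2 : Ω → V)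
    (φ : V →+ V)
    (i0 : Ind w (fun ω => (P1 ω, B1 ω)) (fun ω => (P2 ω, B2 ω)))
    (i1 : Ind w P1 B1) (i2 : Ind w P2 B2) (hP1 : push w P1 = p₁) (hP2 : push w P2 = p₂) :
    H w (fun ω => (φ (P1 ω) + B1 ω) + (φ (P2 ω) + B2 ω)) ≤ H w (fun ω => B1 ω + B2 ω) +
      (1 + η) / 2 * ((H w (fun ω => φ (P1 ω) + B1 ω) - H w B1)
        + (H w (fun ω => φ (P2 ω) + B2 ω) - H w B2)) := by
  have hF := fib h hw P1 P2 B1 B2 φ i0 i1 i2 hP1 hP2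
  set C1 : Ω → V := fun ω => φ (P1 ω) + B1 ω with hC1
  set C2 : Ω → V := fun ω => φ (P2 ω) + B2 ω with hC2
  have s1 := H_submod hw C1 (fun ω => (B1 ω + B2 ω, P1 ω + P2 ω)) (fun ω => C1 ω + C2 ω)
  have s2 : H w (fun ω => (C1 ω, (B1 ω + B2 ω, P1 ω + P2 ω), C1 ω + C2 ω)) =
      H w (fun ω => (P1 ω + P2 ω, (C1 ω, C2 ω))) :=
    H_eq hw (fun q => (q.2.1.2, (q.1, q.2.2 - q.1)))
      (fun q => (q.2.1, (q.2.1 + q.2.2 - φ q.1, q.1), q.2.1 + q.2.2))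
      (fun ω => by simp) (fun ω => by
        simp only [hC1, hC2, Prod.mk.injEq, map_add, true_and, and_true]
        abel)
  have s3 : H w (fun ω => (C1 ω, C1 ω + C2 ω)) = H w C1 + H w C2 := by
    have a1 : H w (fun ω => (C1 ω, C1 ω + C2 ω)) = H w (fun ω => (C1 ω, C2 ω)) :=
      H_eq hw (fun q => (q.1, q.2 - q.1)) (fun q => (q.1, q.1 + q.2))
        (fun ω => by simp) (fun ω => by simp)
    have a2 : Ind w C1 C2 :=
      i0.comp (fun q : V × V => φ q.1 + q.2) (fun q : V × V => φ q.1 + q.2)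
    rw [a1, a2.H hw]
  have s4 : H w (fun ω => ((B1 ω + B2 ω, P1 ω + P2 ω), C1 ω + C2 ω)) =
      H w (fun ω => (B1 ω + B2 ω, P1 ω + P2 ω)) :=
    H_eq hw (fun q => q.1) (fun q => (q, q.1 + φ q.2))
      (fun ω => by simp) (fun ω => by
        simp only [hC1, hC2, Prod.mk.injEq, map_add, true_and]
        abel)
  have s5 := H_subadd hw (fun ω => B1 ω + B2 ω) (fun ω => P1 ω + P2 ω)
  have s6 : H w (fun ω => P1 ω + P2 ω) = D2 p₁ p₂ + (ent p₁ + ent p₂) / 2 :=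
    H_sum_basic (i0.comp (fun q => q.1) (fun q => q.1)) hP1 hP2
  rw [s2, s3, s4] at s1
  rw [s6] at s5
  linarith

/-- one step of near independence -/
theorem fib_step (h : Mn η μ₀ p₁ p₂) {w : Ω → ℝ} (hw : Law w) (P1 P2 B1 B2 : Ω → V)
    (φ : V →+ V) (S : Ω → γ) (g : γ → V) (hg : ∀ ω, B1 ω + B2 ω = g (S ω))
    (iS : Ind w (fun ω => (P1 ω, P2 ω)) (fun ω => (B1 ω, B2 ω, S ω)))
    (i0 : Ind w (fun ω => (P1 ω, B1 ω)) (fun ω => (P2 ω, B2 ω)))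
    (hP1 : push w P1 = p₁) (hP2 : push w P2 = p₂) :
    H w (fun ω => (B1 ω, S ω)) - H w S
      + (1 - η) / 2 * ((H w (fun ω => φ (P1 ω) + B1 ω) - H w B1)
        + (H w (fun ω => φ (P2 ω) + B2 ω) - H w B2)) ≤
    H w (fun ω => (φ (P1 ω) + B1 ω, (S ω, P1 ω + P2 ω))) - H w (fun ω => (S ω, P1 ω + P2 ω)) := by
  have i1 : Ind w P1 B1 := iS.comp (fun q => q.1) (fun q => q.1)
  have i2 : Ind w P2 B2 := iS.comp (fun q => q.2) (fun q => q.2.1)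
  have hF := fib h hw P1 P2 B1 B2 φ i0 i1 i2 hP1 hP2
  set C1 : Ω → V := fun ω => φ (P1 ω) + B1 ω with hC1
  set C2 : Ω → V := fun ω => φ (P2 ω) + B2 ω with hC2
  have s1 := H_submod hw P1 S (fun ω => (C1 ω, B1 ω + B2 ω, P1 ω + P2 ω))
  have s2 : H w (fun ω => (P1 ω, S ω, (C1 ω, B1 ω + B2 ω, P1 ω + P2 ω))) =
      H w (fun ω => (P1 ω, P1 ω + P2 ω)) + H w (fun ω => (B1 ω, S ω)) := by
    have a1 : H w (fun ω => (P1 ω, S ω, (C1 ω, B1 ω + B2 ω, P1 ω + P2 ω))) =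
        H w (fun ω => ((P1 ω, P1 ω + P2 ω), (B1 ω, S ω))) :=
      H_eq hw (fun q => ((q.1, q.2.2.2.2), (q.2.2.1 - φ q.1, q.2.1)))
        (fun q => (q.1.1, q.2.2, (φ q.1.1 + q.2.1, g q.2.2, q.1.2)))
        (fun ω => by simp [hC1]) (fun ω => by simp [hC1, hg])
    have a2 : Ind w (fun ω => (P1 ω, P1 ω + P2 ω)) (fun ω => (B1 ω, S ω)) :=
      iS.comp (fun q => (q.1, q.1 + q.2)) (fun q => (q.1, q.2.2))
    rw [a1, a2.H hw]
  have s3 : H w (fun ω => (P1 ω, (C1 ω, B1 ω + B2 ω, P1 ω + P2 ω))) ≤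
      H w (fun ω => (P1 ω, P1 ω + P2 ω)) + (H w B1 + H w B2) := by
    have a1 : H w (fun ω => (P1 ω, (C1 ω, B1 ω + B2 ω, P1 ω + P2 ω))) =
        H w (fun ω => ((P1 ω, P1 ω + P2 ω), (B1 ω, B2 ω))) :=
      H_eq hw (fun q => ((q.1, q.2.2.2), (q.2.1 - φ q.1, q.2.2.1 - (q.2.1 - φ q.1))))
        (fun q => (q.1.1, (φ q.1.1 + q.2.1, q.2.1 + q.2.2, q.1.2)))
        (fun ω => by simp [hC1]) (fun ω => by simp [hC1])
    have a2 := H_subadd hw (fun ω => (P1 ω, P1 ω + P2 ω)) (fun ω => (B1 ω, B2 ω))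
    have a3 := H_subadd hw B1 B2
    rw [a1]
    linarith
  have s4 : H w (fun ω => (S ω, (C1 ω, B1 ω + B2 ω, P1 ω + P2 ω))) =
      H w (fun ω => (C1 ω, (S ω, P1 ω + P2 ω))) :=
    H_eq hw (fun q => (q.2.1, (q.1, q.2.2.2))) (fun q => (q.2.1, (q.1, g q.2.1, q.2.2)))
      (fun ω => by simp) (fun ω => by simp [hg])
  have s5 : H w (fun ω => (C1 ω, B1 ω + B2 ω, P1 ω + P2 ω)) =
      H w (fun ω => (P1 ω + P2 ω, (C1 ω, C2 ω))) :=
    H_eq hw (fun q => (q.2.2, (q.1, q.2.1 + φ q.2.2 - q.1)))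
      (fun q => (q.2.1, q.2.1 + q.2.2 - φ q.1, q.1))
      (fun ω => by
        simp only [hC1, hC2, Prod.mk.injEq, map_add, true_and]
        abel) (fun ω => by
        simp only [hC1, hC2, Prod.mk.injEq, map_add, true_and, and_true]
        abel)
  have s6 := H_subadd hw S (fun ω => P1 ω + P2 ω)
  have s7 : H w (fun ω => P1 ω + P2 ω) = D2 p₁ p₂ + (ent p₁ + ent p₂) / 2 :=
    H_sum_basic (i0.comp (fun q => q.1) (fun q => q.1)) hP1 hP2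
  rw [s2, s4, s5] at s1
  rw [s7] at s6
  nlinarith [s1, s3, s6, hF]

end Pool.Agent.TH404.Tor
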