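import Pool.Agent.TH404.Tor.Bound
import Pool.Agent.H137R2.PFR.Wrap
set_option autoImplicit false

/-! Marton's conjecture for `m`-torsion groups with an exponent `O(log m)`. -/

open scoped Classical Pointwise

namespace Pool.Agent.TH404.Tor

open H137.PFR hiding dist

/-! ### groups -/

theorem sup_card {G : Type*} [AddCommGroup G] (H₁ : AddSubgroup G) [Finite H₁] (g : G) {k : ℕ}
    (hk : 0 < k) (hkg : k • g ∈ H₁) :
    Finite (H₁ ⊔ AddSubgroup.zmultiples g : AddSubgroup G) ∧
      Nat.card (H₁ ⊔ AddSubgroup.zmultiples g : AddSubgroup G) ≤ k * Nat.card H₁ := by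
  let f : Fin k × H₁ → (H₁ ⊔ AddSubgroup.zmultiples g : AddSubgroup G) := fun p =>
    ⟨(p.1 : ℕ) • g + p.2, by
      apply AddSubgroup.add_mem
      · exact (le_sup_right : AddSubgroup.zmultiples g ≤ _)
          (AddSubgroup.nsmul_mem _ (AddSubgroup.mem_zmultiples g) _)
      · exact (le_sup_left : H₁ ≤ _) p.2.2⟩
  have hf : Function.Surjective f := by
    rintro ⟨x, hx⟩
    rw [AddSubgroup.mem_sup] at hx
    obtain ⟨y, hy, z, hz, rfl⟩ := hx
    obtain ⟨n, rfl⟩ := AddSubgroup.mem_zmultiples_iff.1 hz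
    have hmod := Int.emod_nonneg n (by positivity : (k : ℤ) ≠ 0)
    have hlt := Int.emod_lt_of_pos n (by positivity : (0:ℤ) < k)
    have hdiv := Int.emod_add_mul_ediv n k
    have hkq : ((k : ℤ) * (n / k)) • g ∈ H₁ := by
      rw [mul_comm, mul_smul]
      apply AddSubgroup.zsmul_mem
      simpa using hkg
    refine ⟨(⟨(n % k).toNat, by omega⟩, ⟨((k : ℤ) * (n / k)) • g + y,
      AddSubgroup.add_mem _ hkq hy⟩), ?_⟩
    apply Subtype.ext
    show ((n % k).toNat : ℕ) • g + (((k : ℤ) * (n / k)) • g + y) = y + n • g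
    have h1 : ((n % k).toNat : ℕ) • g = (n % k) • g := by
      rw [← natCast_zsmul, Int.toNat_of_nonneg hmod]
    rw [h1, ← add_assoc, ← add_smul, hdiv, add_comm]
  refine ⟨Finite.of_surjective f hf, ?_⟩
  have := Nat.card_le_card_of_surjective f hf
  simpa [Nat.card_prod] using this

theorem closure_finite {G : Type*} [AddCommGroup G] (m : ℕ) (hm : 0 < m)
    (htor : ∀ x : G, m • x = 0) (S : Finset G) :
    Finite (AddSubgroup.closure (S : Set G)) := by
  induction S using Finset.induction_on with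
  | empty =>
    rw [Finset.coe_empty, AddSubgroup.closure_empty]
    infer_instance
  | insert g S hg ih =>
    have heq : AddSubgroup.closure ((insert g S : Finset G) : Set G) =
        AddSubgroup.closure (S : Set G) ⊔ AddSubgroup.zmultiples g := by
      rw [Finset.coe_insert, Set.insert_eq, AddSubgroup.closure_union, sup_comm,
        AddSubgroup.zmultiples_eq_closure]
    rw [heq]
    exact (sup_card _ g hm (by rw [htor g]; exact AddSubgroup.zero_mem _)).1

/-- transversal of a subgroup -/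
theorem transversal {G : Type*} [AddCommGroup G] (H H' : AddSubgroup G) [Finite H] (hle : H' ≤ H) :
    ∃ S : Finset G, S.card * Nat.card H' = Nat.card H ∧ ∀ g ∈ H, ∃ s ∈ S, g - s ∈ H' := by
  have hfq : Finite (H ⧸ H'.addSubgroupOf H) := inferInstance
  have hft : Fintype (H ⧸ H'.addSubgroupOf H) := Fintype.ofFinite _
  let f : (H ⧸ H'.addSubgroupOf H) → G := fun q => (q.out : H)
  have hf : Function.Injective f := by
    intro q q' hqq
    have h1 : q.out = q'.out := Subtype.ext hqq
    rw [← QuotientAddGroup.out_eq' q, ← QuotientAddGroup.out_eq' q', h1]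
  refine ⟨Finset.univ.map ⟨f, hf⟩, ?_, ?_⟩
  · rw [Finset.card_map, Finset.card_univ, ← Nat.card_eq_fintype_card]
    have h1 := AddSubgroup.card_eq_card_quotient_mul_card_addSubgroup (H'.addSubgroupOf H)
    have h2 : Nat.card (H'.addSubgroupOf H) = Nat.card H' :=
      Nat.card_congr (AddSubgroup.addSubgroupOfEquivOfLe hle).toEquiv
    rw [h2] at h1
    exact h1.symm
  · intro g hg
    refine ⟨f (QuotientAddGroup.mk ⟨g, hg⟩), Finset.mem_map.2 ⟨_, Finset.mem_univ _, rfl⟩, ?_⟩
    have h1 : (QuotientAddGroup.mk ((QuotientAddGroup.mk ⟨g, hg⟩ :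
        H ⧸ H'.addSubgroupOf H).out) : H ⧸ H'.addSubgroupOf H) = QuotientAddGroup.mk ⟨g, hg⟩ :=
      QuotientAddGroup.out_eq' _
    rw [QuotientAddGroup.eq] at h1
    have h2 : ((-(QuotientAddGroup.mk ⟨g, hg⟩ : H ⧸ H'.addSubgroupOf H).out + ⟨g, hg⟩ : H) : G) ∈
        H' := h1
    have h3 : ((-(QuotientAddGroup.mk ⟨g, hg⟩ : H ⧸ H'.addSubgroupOf H).out + ⟨g, hg⟩ : H) : G) =
        g - f (QuotientAddGroup.mk ⟨g, hg⟩) := by
      simp only [f, AddSubgroup.coe_add, AddSubgroup.coe_neg]
      abel
    rw [h3] at h2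
    exact h2

/-- shrinking a subgroup -/
theorem shrink {G : Type*} [AddCommGroup G] (m : ℕ) (hm : 0 < m) (htor : ∀ x : G, m • x = 0)
    (H : AddSubgroup G) [Finite H] (a : ℕ) (ha : 1 ≤ a) :
    ∃ (H' : AddSubgroup G) (S : Finset G), H' ≤ H ∧ Nat.card H' ≤ a ∧
      (S.card ≤ 1 ∨ S.card * a ≤ m * Nat.card H) ∧ ∀ g ∈ H, ∃ s ∈ S, g - s ∈ H' := by
  by_cases hc : Nat.card H ≤ a
  · refine ⟨H, {0}, le_rfl, hc, Or.inl (by simp), fun g hg => ⟨0, by simp, by simpa using hg⟩⟩
  · -- maximal subgroup of cardinality at most `a`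
    let P : ℕ → Prop := fun n => ∃ H' : AddSubgroup G, H' ≤ H ∧ Nat.card H' = n
    have hP1 : P 1 := ⟨⊥, bot_le, by simp⟩
    have hb : ∀ n, P n → n ≤ Nat.card H := by
      rintro n ⟨H', hle, rfl⟩
      exact Nat.card_mono (Set.toFinite _) hle
    obtain ⟨H', hle, hcard⟩ := Nat.findGreatest_spec (P := P) ha hP1
    set n := Nat.findGreatest P a with hn
    have hna : n ≤ a := Nat.findGreatest_le a
    have hlt : H' < H := by
      refine lt_of_le_of_ne hle ?_
      intro he
      rw [he] at hcard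
      omega
    obtain ⟨g, hgH, hgH'⟩ := SetLike.exists_of_lt hlt
    have hfH' : Finite H' := Finite.Set.subset (H : Set G) hle
    obtain ⟨hf2, hc2⟩ := sup_card H' g hm (by rw [htor g]; exact AddSubgroup.zero_mem _)
    have hle2 : H' ⊔ AddSubgroup.zmultiples g ≤ H :=
      sup_le hle ((AddSubgroup.zmultiples_le_of_mem hgH))
    have hlt2 : H' < H' ⊔ AddSubgroup.zmultiples g := by
      refine lt_of_le_of_ne le_sup_left ?_
      intro he
      apply hgH'
      rw [he]
      exact (le_sup_right : AddSubgroup.zmultiples g ≤ _) (AddSubgroup.mem_zmultiples g)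
    have hcl : Nat.card H' < Nat.card (H' ⊔ AddSubgroup.zmultiples g : AddSubgroup G) := by
      have h1 : (H' : Set G) ⊂ ((H' ⊔ AddSubgroup.zmultiples g : AddSubgroup G) : Set G) := hlt2
      have h2 := Set.ncard_lt_ncard h1 (Set.toFinite _)
      exact h2
    have hbig : a < Nat.card (H' ⊔ AddSubgroup.zmultiples g : AddSubgroup G) := by
      by_contra hcon
      push Not at hcon
      have h3 : Nat.card (H' ⊔ AddSubgroup.zmultiples g : AddSubgroup G) ≤ n :=
        Nat.le_findGreatest hcon ⟨_, hle2, rfl⟩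
      rw [hcard] at hcl
      omega
    obtain ⟨S, hS1, hS2⟩ := transversal H H' hle
    refine ⟨H', S, hle, by rw [hcard]; exact hna, Or.inr ?_, hS2⟩
    calc S.card * a ≤ S.card * (m * Nat.card H') := Nat.mul_le_mul_left _ (by omega)
      _ = m * (S.card * Nat.card H') := by ring
      _ = m * Nat.card H := by rw [hS1]

/-! ### the finite case -/

/-- the uniform law -/
noncomputable def unif {V : Type*} (A : Finset V) : V → ℝ := fun x => if x ∈ A then (A.card : ℝ)⁻¹
  else 0

theorem law_unif {V : Type*} [Fintype V] {A : Finset V} (hA : A.Nonempty) : Law (unif A) := by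
  have hpos : (0 : ℝ) < A.card := by exact_mod_cast hA.card_pos
  constructor
  · intro x
    unfold unif
    split_ifs
    · positivity
    · exact le_rfl
  · unfold unif
    rw [Finset.sum_ite_mem, Finset.univ_inter, Finset.sum_const, nsmul_eq_mul,
      mul_inv_cancel₀ hpos.ne']

theorem ent_unif {V : Type*} [Fintype V] {A : Finset V} (hA : A.Nonempty) :
    ent (unif A) = Real.log A.card := by
  have hpos : (0 : ℝ) < A.card := by exact_mod_cast hA.card_pos
  unfold ent unif
  have h1 : ∀ x : V, Real.negMulLog (if x ∈ A then (A.card : ℝ)⁻¹ else 0) =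
      if x ∈ A then Real.negMulLog ((A.card : ℝ)⁻¹) else 0 := by
    intro x
    split_ifs
    · rfl
    · exact Real.negMulLog_zero
  rw [Finset.sum_congr rfl fun x _ => h1 x, Finset.sum_ite_mem, Finset.univ_inter,
    Finset.sum_const, nsmul_eq_mul, Real.negMulLog, Real.log_inv]
  field_simp

theorem finite_case {V : Type*} [AddCommGroup V] [Fintype V] (m : ℕ) [NeZero m]
    [Module (ZMod m) V] (t : ℕ) (ht : 1 ≤ t) (hm : m ≤ 2 ^ t) (K : ℝ) (A : Finset V)
    (hA : A.Nonempty) (hK : ((A + A).card : ℝ) ≤ K * (A.card : ℝ)) :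
    ∃ (G : AddSubgroup V) (T : Finset V), (Nat.card G : ℝ) ≤ K ^ (20502 * t) * A.card ∧
      (T.card : ℝ) ≤ K ^ (20502 * t + 1) ∧ ∀ a ∈ A, ∃ x ∈ T, a - x ∈ G := by
  have hpos : (0 : ℝ) < A.card := by exact_mod_cast hA.card_pos
  have hK1 : 1 ≤ K := by
    have h1 : (A.card : ℝ) ≤ (A + A).card := by
      exact_mod_cast Finset.card_le_card_add_right hA
    nlinarith
  have hK0 : 0 < K := by linarith
  have hlaw := law_unif hA
  have hent := ent_unif hA
  have hconv : ent (conv (unif A) (unif A)) ≤ Real.log K + Real.log A.card := by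
    have h1 := ent_le_log_card (law_conv hlaw hlaw) (A + A) (fun x hx => by
      rw [wrap_conv_apply]
      refine Finset.sum_eq_zero fun y _ => ?_
      unfold unif
      by_cases h1 : y ∈ A
      · by_cases h2 : x - y ∈ A
        · exfalso
          apply hx
          have := Finset.add_mem_add h1 h2
          rwa [add_sub_cancel] at this
        · simp [h2]
      · simp [h1])
    refine h1.trans ?_
    rw [← Real.log_mul hK0.ne' hpos.ne']
    apply Real.log_le_log _ hK
    have : (A + A).Nonempty := hA.add hA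
    exact_mod_cast this.card_pos
  obtain ⟨G, hG1, hG2⟩ := entropic_marton (m := m) t ht hm hlaw
  have hκ : ent (conv (unif A) (unif A)) - ent (unif A) ≤ Real.log K := by
    rw [hent]; linarith
  have ht0 : (0 : ℝ) ≤ 20502 * t := by positivity
  have hG1' : entMod (unif A) G ≤ 20502 * t * Real.log K :=
    hG1.trans (mul_le_mul_of_nonneg_left hκ ht0)
  have hG2' : Real.log (Nat.card G) - Real.log A.card ≤ 20502 * t * Real.log K := by
    rw [← hent]
    exact hG2.trans (mul_le_mul_of_nonneg_left hκ ht0)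
  have hGpos : (0 : ℝ) < Nat.card G := by exact_mod_cast Nat.card_pos
  have hpow : Real.log (K ^ (20502 * t)) = 20502 * t * Real.log K := by
    rw [Real.log_pow]; push_cast; ring
  refine ⟨G, ?_⟩
  -- a popular coset
  obtain ⟨c, hc⟩ := exists_exp_le (law_push hlaw
    (fun x : V => (QuotientAddGroup.mk x : V ⧸ G)))
  set A' := A.filter (fun x => (QuotientAddGroup.mk x : V ⧸ G) = c) with hA'
  have hpush : push (unif A) (fun x : V => (QuotientAddGroup.mk x : V ⧸ G)) c =
      A'.card / A.card := by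
    unfold push unif
    rw [hA', Finset.card_filter]
    push_cast
    rw [Finset.sum_div, ← Finset.sum_subset (Finset.subset_univ A)]
    · refine Finset.sum_congr rfl fun x hx => ?_
      rw [if_pos hx]
      split_ifs <;> simp [div_eq_mul_inv]
    · intro x _ hx
      rw [if_neg hx, ite_self]
  have hA'1 : (A.card : ℝ) ≤ K ^ (20502 * t) * A'.card := by
    have h1 : Real.exp (-(20502 * t * Real.log K)) ≤ A'.card / A.card := by
      rw [← hpush]
      refine le_trans (Real.exp_le_exp.2 (neg_le_neg hG1')) hc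
    rw [Real.exp_neg, ← hpow, Real.exp_log (by positivity), le_div_iff₀ hpos,
      inv_mul_le_iff₀ (by positivity)] at h1
    exact h1
  have hA'ne : A'.Nonempty := by
    rw [← Finset.card_pos]
    by_contra hcon
    have h0 : A'.card = 0 := by omega
    rw [h0] at hA'1
    simp at hA'1
    rw [hA'1] at hA
    exact Finset.not_nonempty_empty hA
  have hcov : ((A + A').card : ℝ) ≤ K ^ (20502 * t + 1) * A'.card := by
    have h1 : ((A + A').card : ℝ) ≤ (A + A).card := by
      exact_mod_cast Finset.card_le_card (Finset.add_subset_add_left (Finset.filter_subset _ _))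
    calc ((A + A').card : ℝ) ≤ K * A.card := h1.trans hK
      _ ≤ K * (K ^ (20502 * t) * A'.card) := mul_le_mul_of_nonneg_left hA'1 hK0.le
      _ = _ := by rw [pow_succ]; ring
  obtain ⟨F, -, hF, hAF⟩ := Finset.ruzsa_covering_add hA'ne hcov
  refine ⟨F, ?_, hF, ?_⟩
  · have h1 : Real.log (Nat.card G) ≤ Real.log (K ^ (20502 * t) * A.card) := by
      rw [Real.log_mul (by positivity) hpos.ne', hpow]
      linarith
    exact (Real.log_le_log_iff hGpos (by positivity)).1 h1
  · intro a ha
    obtain ⟨f, hf, d, hd, hfd⟩ := Finset.mem_add.1 (hAF ha)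
    obtain ⟨x, hx, y, hy, hxy⟩ := Finset.mem_sub.1 hd
    refine ⟨f, hf, ?_⟩
    have h1 : a - f = x - y := by rw [← hfd, hxy]; abel
    rw [h1]
    have hx' := (Finset.mem_filter.1 hx).2
    have hy' := (Finset.mem_filter.1 hy).2
    rw [← hy', eq_comm, QuotientAddGroup.eq] at hx'
    have h2 : -y + x = x - y := by abel
    rwa [h2] at hx'

theorem finite_case' {V : Type*} [AddCommGroup V] [Fintype V] [d : DecidableEq V] (m : ℕ)
    [NeZero m] [Module (ZMod m) V] (t : ℕ) (ht : 1 ≤ t) (hm : m ≤ 2 ^ t) (K : ℝ) (A : Finset V)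
    (hA : A.Nonempty) (hK : ((A + A).card : ℝ) ≤ K * (A.card : ℝ)) :
    ∃ (G : AddSubgroup V) (T : Finset V), (Nat.card G : ℝ) ≤ K ^ (20502 * t) * A.card ∧
      (T.card : ℝ) ≤ K ^ (20502 * t + 1) ∧ ∀ a ∈ A, ∃ x ∈ T, a - x ∈ G := by
  have hd : d = (fun a b => Classical.propDecidable (a = b)) := Subsingleton.elim _ _
  subst hd
  exact finite_case m t ht hm K A hA hK

/-! ### the general case -/

theorem upper' {Γ : Type*} [AddCommGroup Γ] (m : ℕ) (hm : 0 < m)
    (htor : ∀ x : Γ, m • x = 0) (K : ℝ) (A : Finset Γ) (hA : A.Nonempty)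
    (hK : ((A + A).card : ℝ) ≤ K * (A.card : ℝ)) :
    ∃ (H : AddSubgroup Γ) (T : Finset Γ), Finite H ∧ Nat.card H ≤ A.card ∧
      (T.card : ℝ) ≤ (2 * K) ^ (41005 * (Nat.log 2 m + 1)) ∧ ∀ a ∈ A, ∃ t ∈ T, a - t ∈ H := by
  have hpos : (0 : ℝ) < A.card := by exact_mod_cast hA.card_pos
  have hK1 : 1 ≤ K := by
    have h1 : (A.card : ℝ) ≤ (A + A).card := by
      exact_mod_cast Finset.card_le_card_add_right hA
    nlinarith
  set t := Nat.log 2 m + 1 with ht
  have hmt : m ≤ 2 ^ t := (Nat.lt_pow_succ_log_self (by norm_num) m).le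
  have ht1 : 1 ≤ t := by omega
  have : NeZero m := ⟨hm.ne'⟩
  set V := AddSubgroup.closure (A : Set Γ) with hV
  have hfin : Finite V := closure_finite m hm htor A
  have hft : Fintype V := Fintype.ofFinite V
  let _ : Module (ZMod m) V := AddCommGroup.zmodModule (fun x => Subtype.ext (by simp [htor]))
  set A₁ : Finset V := A.preimage (fun v : V => (v : Γ)) Subtype.val_injective.injOn with hA₁
  have hmap : A₁.map ⟨fun v : V => (v : Γ), Subtype.val_injective⟩ = A := by
    ext a
    simp only [hA₁, Finset.mem_map, Finset.mem_preimage, Function.Embedding.coeFn_mk]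
    constructor
    · rintro ⟨v, hv, rfl⟩
      exact hv
    · intro ha
      exact ⟨⟨a, AddSubgroup.subset_closure ha⟩, ha, rfl⟩
  have hcard : A₁.card = A.card := by rw [← hmap, Finset.card_map]
  have hcard2 : (A₁ + A₁).card = (A + A).card := by
    have h1 : (A₁ + A₁).image (fun v : V => (v : Γ)) = A + A := by
      have h2 : A = A₁.image (fun v : V => (v : Γ)) := by
        rw [← hmap, Finset.map_eq_image]; rfl
      have h3 : (A₁ + A₁).image (V.subtype) = A₁.image V.subtype + A₁.image V.subtype :=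
        Finset.image_add V.subtype
      have h4 : (V.subtype : V → Γ) = fun v : V => (v : Γ) := rfl
      rw [h4, ← h2] at h3
      exact h3
    rw [← h1, Finset.card_image_of_injective _ Subtype.val_injective]
  have hA₁ne : A₁.Nonempty := by
    rw [← Finset.card_pos, hcard]
    exact hA.card_pos
  obtain ⟨G, T₁, hG, hT₁, hcov⟩ := finite_case' m t ht1 hmt K A₁ hA₁ne (by
    rw [hcard, hcard2]
    exact hK)
  have hGfin : Finite G := inferInstance
  set G' : AddSubgroup Γ := G.map V.subtype with hG'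
  have hG'card : Nat.card G' = Nat.card G :=
    Nat.card_congr (G.equivMapOfInjective V.subtype Subtype.val_injective).symm.toEquiv
  have hG'fin : Finite G' := Finite.of_equiv G
    (G.equivMapOfInjective V.subtype Subtype.val_injective).toEquiv
  obtain ⟨H, S, hHle, hHcard, hS, hScov⟩ := shrink m hm htor G' A.card hA.card_pos
  refine ⟨H, T₁.image (fun v : V => (v : Γ)) + S, Finite.Set.subset (G' : Set Γ) hHle, hHcard,
    ?_, ?_⟩
  · have h1 : ((T₁.image (fun v : V => (v : Γ)) + S).card : ℝ) ≤ T₁.card * S.card := by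
      have := Finset.card_add_le (s := T₁.image (fun v : V => (v : Γ))) (t := S)
      have h2 : (T₁.image (fun v : V => (v : Γ))).card ≤ T₁.card := Finset.card_image_le
      exact_mod_cast this.trans (Nat.mul_le_mul_right _ h2)
    have hKp : (1 : ℝ) ≤ K ^ (20502 * t) := one_le_pow₀ hK1
    have h2t : (1 : ℝ) ≤ 2 ^ t := one_le_pow₀ (by norm_num)
    have h2 : (S.card : ℝ) ≤ 2 ^ t * K ^ (20502 * t) := by
      rcases hS with hS | hS
      · have : (S.card : ℝ) ≤ 1 := by exact_mod_cast hS
        nlinarith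
      · have h3 : (S.card : ℝ) * A.card ≤ m * Nat.card G' := by exact_mod_cast hS
        rw [hG'card] at h3
        rw [hcard] at hG
        have h4 : (m : ℝ) ≤ 2 ^ t := by exact_mod_cast hmt
        have h5 : (m : ℝ) * Nat.card G ≤ 2 ^ t * (K ^ (20502 * t) * A.card) :=
          mul_le_mul h4 hG (by positivity) (by positivity)
        have h6 : (S.card : ℝ) * A.card ≤ (2 ^ t * K ^ (20502 * t)) * A.card := by
          rw [mul_assoc]; exact h3.trans h5
        exact le_of_mul_le_mul_right h6 hpos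
    calc ((T₁.image (fun v : V => (v : Γ)) + S).card : ℝ) ≤ T₁.card * S.card := h1
      _ ≤ K ^ (20502 * t + 1) * (2 ^ t * K ^ (20502 * t)) :=
          mul_le_mul hT₁ h2 (by positivity) (by positivity)
      _ = 2 ^ t * K ^ (20502 * t + 1 + 20502 * t) := by rw [pow_add K (20502 * t + 1)]; ring
      _ ≤ 2 ^ (41005 * t) * K ^ (41005 * t) := by
          gcongr
          · norm_num
          · omega
          · omega
      _ = _ := by rw [mul_pow]
  · intro a ha
    have ha1 : (⟨a, AddSubgroup.subset_closure ha⟩ : V) ∈ A₁ := by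
      rw [hA₁, Finset.mem_preimage]
      exact ha
    obtain ⟨x, hx, hxG⟩ := hcov _ ha1
    have h1 : a - (x : Γ) ∈ G' := ⟨_, hxG, rfl⟩
    obtain ⟨s, hs, hsH⟩ := hScov _ h1
    refine ⟨(x : Γ) + s, Finset.add_mem_add (Finset.mem_image_of_mem _ hx) hs, ?_⟩
    rwa [← sub_sub]

theorem upper {Γ : Type*} [AddCommGroup Γ] [d : DecidableEq Γ] (m : ℕ) (hm : 0 < m)
    (htor : ∀ x : Γ, m • x = 0) (K : ℝ) (A : Finset Γ) (hA : A.Nonempty)
    (hK : ((A + A).card : ℝ) ≤ K * (A.card : ℝ)) :
    ∃ (H : AddSubgroup Γ) (T : Finset Γ), Finite H ∧ Nat.card H ≤ A.card ∧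
      (T.card : ℝ) ≤ (2 * K) ^ (41005 * (Nat.log 2 m + 1)) ∧ ∀ a ∈ A, ∃ t ∈ T, a - t ∈ H := by
  have hd : d = (fun a b => Classical.propDecidable (a = b)) := Subsingleton.elim _ _
  subst hd
  exact upper' m hm htor K A hA hK

/-- the lower bound -/
theorem lower (m : ℕ) (hm : 0 < m) : ∃ A : Finset (ZMod m), A.Nonempty ∧
    (A + A).card ≤ 2 * A.card ∧
    ∀ (H : AddSubgroup (ZMod m)) (T : Finset (ZMod m)), Nat.card H ≤ A.card →
      (∀ a ∈ A, ∃ t ∈ T, a - t ∈ H) → Nat.sqrt m ≤ T.card := by
  have : NeZero m := ⟨hm.ne'⟩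
  set r := Nat.sqrt m with hr
  have hrm : r * r ≤ m := Nat.sqrt_le m
  have hr0 : 0 < r := Nat.sqrt_pos.2 hm
  have hrm' : r ≤ m := by nlinarith
  let A : Finset (ZMod m) := (Finset.range r).image (fun n : ℕ => (n : ZMod m))
  have hinj : Set.InjOn (fun n : ℕ => (n : ZMod m)) (Finset.range r : Finset ℕ) := by
    intro x hx y hy hxy
    have hx' : x < m := lt_of_lt_of_le (Finset.mem_range.1 hx) hrm'
    have hy' : y < m := lt_of_lt_of_le (Finset.mem_range.1 hy) hrm'
    have h := (ZMod.natCast_eq_natCast_iff' x y m).1 hxy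
    rwa [Nat.mod_eq_of_lt hx', Nat.mod_eq_of_lt hy'] at h
  have hcard : A.card = r := by
    rw [Finset.card_image_of_injOn hinj, Finset.card_range]
  refine ⟨A, ?_, ?_, ?_⟩
  · exact ⟨((0 : ℕ) : ZMod m), Finset.mem_image.2 ⟨0, Finset.mem_range.2 hr0, rfl⟩⟩
  · have hsub : A + A ⊆ (Finset.range (2 * r)).image (fun n : ℕ => (n : ZMod m)) := by
      intro z hz
      obtain ⟨x, hx, y, hy, rfl⟩ := Finset.mem_add.1 hz
      obtain ⟨a, ha, rfl⟩ := Finset.mem_image.1 hx
      obtain ⟨b, hb, rfl⟩ := Finset.mem_image.1 hy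
      rw [Finset.mem_range] at ha hb
      refine Finset.mem_image.2 ⟨a + b, Finset.mem_range.2 (by omega), by push_cast; ring⟩
    calc (A + A).card ≤ _ := Finset.card_le_card hsub
      _ ≤ (Finset.range (2 * r)).card := Finset.card_image_le
      _ = 2 * A.card := by rw [Finset.card_range, hcard]
  · intro H T hH hcov
    rw [hcard] at hH
    have hHpos : 0 < Nat.card H := Nat.card_pos
    have hkill : ∀ h ∈ H, ((Nat.card H : ℕ) : ZMod m) * h = 0 := by
      intro h hh
      have h1 : Nat.card H • (⟨h, hh⟩ : H) = 0 := card_nsmul_eq_zero'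
      have h0 := congrArg Subtype.val h1
      rw [AddSubgroup.coe_nsmul, AddSubgroup.coe_zero] at h0
      rw [nsmul_eq_mul] at h0
      exact h0
    choose! t ht hta using hcov
    have hinj2 : Set.InjOn t (A : Set (ZMod m)) := by
      intro a ha b hb hab
      obtain ⟨x, hx, rfl⟩ := Finset.mem_image.1 ha
      obtain ⟨y, hy, rfl⟩ := Finset.mem_image.1 hb
      rw [Finset.mem_range] at hx hy
      have h1 : ((x : ZMod m) - (y : ZMod m)) ∈ H := by
        have h2 := H.sub_mem (hta _ ha) (hta _ hb)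
        rw [hab] at h2
        simpa using h2
      have h3 := hkill _ h1
      have h4 : (((Nat.card H * x : ℕ)) : ZMod m) = ((Nat.card H * y : ℕ) : ZMod m) := by
        push_cast
        rw [mul_sub] at h3
        exact sub_eq_zero.1 h3
      have hx' : Nat.card H * x < m := by
        calc Nat.card H * x < Nat.card H * r := Nat.mul_lt_mul_of_pos_left hx hHpos
          _ ≤ r * r := Nat.mul_le_mul_right _ hH
          _ ≤ m := hrm
      have hy' : Nat.card H * y < m := by
        calc Nat.card H * y < Nat.card H * r := Nat.mul_lt_mul_of_pos_left hy hHpos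
          _ ≤ r * r := Nat.mul_le_mul_right _ hH
          _ ≤ m := hrm
      have h := (ZMod.natCast_eq_natCast_iff' _ _ m).1 h4
      rw [Nat.mod_eq_of_lt hx', Nat.mod_eq_of_lt hy'] at h
      have := Nat.eq_of_mul_eq_mul_left hHpos h
      rw [this]
    have : A.card ≤ T.card := Finset.card_le_card_of_injOn t (fun a ha => ht a ha) hinj2
    rw [hcard] at this
    exact this

end Pool.Agent.TH404.Tor
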