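import Pool.Agent.TH404.Tor.Fib
set_option autoImplicit false

/-! Near independence. -/

open scoped Classical

namespace Pool.Agent.TH404.Tor

open H137.PFR hiding dist

variable {α β γ δ : Type*} [Fintype α] [Fintype β] [Fintype γ] [Fintype δ]

variable {V : Type*} [AddCommGroup V] [Fintype V]

variable {ι : Type*} [Fintype ι] [DecidableEq ι]

/-- the data of a flip: `J` half of the cells, `σ` sends `J` outside of `J` -/
structure Flip (p₁ p₂ : V → ℝ) (p : ι → V → ℝ) (φ : ι → V →+ V) (σ : ι ≃ ι) (J : Finset ι)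
    (j0 : ι) : Prop where
  hJ : ∀ i ∈ J, σ i ∉ J
  hp : ∀ i ∈ J, (p i = p₁ ∧ p (σ i) = p₂) ∨ (p i = p₂ ∧ p (σ i) = p₁)
  h0 : j0 ∈ J
  hφ : φ j0 = AddMonoidHom.id V

/-- first column sum -/
def Zf (φ : ι → V →+ V) (s : Finset ι) (x : ι → V) : V := ∑ i ∈ s, φ i (x i)

/-- second column sum -/
def Zs (φ : ι → V →+ V) (σ : ι ≃ ι) (s : Finset ι) (x : ι → V) : V := ∑ i ∈ s, φ i (x (σ i))

/-- pair sums -/
def Sp (σ : ι ≃ ι) (s : Finset ι) (x : ι → V) : ι → V := fun i => if i ∈ s then x i + x (σ i) else 0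

variable {η : ℝ} {μ₀ p₁ p₂ : V → ℝ} {p : ι → V → ℝ} {φ : ι → V →+ V} {σ : ι ≃ ι} {J : Finset ι}
  {j0 : ι}

theorem Zf_add_Zs (s : Finset ι) (x : ι → V) :
    Zf φ s x + Zs φ σ s x = ∑ i ∈ s, φ i (Sp σ s x i) := by
  unfold Zf Zs Sp
  rw [← Finset.sum_add_distrib]
  refine Finset.sum_congr rfl fun i hi => ?_
  rw [if_pos hi, map_add]

/-- the main lower bound -/
theorem star (h : Mn η μ₀ p₁ p₂) (hp : ∀ i, Law (p i)) (F : Flip p₁ p₂ p φ σ J j0)
    (s : Finset ι) (hs : s ⊆ J) (hj : j0 ∉ s) :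
    (ent p₁ + ent p₂) / 2 - D2 p₁ p₂
      + (1 - η) / 2 * (H (pl p) (Zf φ (insert j0 s)) + H (pl p) (Zs φ σ (insert j0 s))
        - ent p₁ - ent p₂) ≤
    H (pl p) (fun x => (Zf φ (insert j0 s) x, Sp σ (insert j0 s) x))
      - H (pl p) (Sp σ (insert j0 s)) := by
  have hw : Law (pl p) := law_pl hp
  induction s using Finset.induction_on with
  | empty =>
    have hne : j0 ≠ σ j0 := by
      intro he
      exact F.hJ j0 F.h0 (he ▸ F.h0)
    have e1 : Zf φ (insert j0 ∅) = fun x : ι → V => x j0 := by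
      funext x
      simp [Zf, F.hφ]
    have e2 : Zs φ σ (insert j0 ∅) = fun x : ι → V => x (σ j0) := by
      funext x
      simp [Zs, F.hφ]
    have hI : Ind (pl p) (fun x : ι → V => x j0) (fun x => x (σ j0)) := by
      refine ind_pl hp {j0} _ _ ?_ ?_
      · intro x y hxy
        exact hxy j0 rfl
      · intro x y hxy
        exact hxy (σ j0) (fun hc => hne hc.symm)
    have e3 : H (pl p) (fun x => (Zf φ (insert j0 ∅) x, Sp σ (insert j0 ∅) x)) =
        H (pl p) (fun x => (x j0, x (σ j0))) := by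
      rw [e1]
      refine H_eq hw (fun q => (q.1, q.2 j0 - q.1))
        (fun q => (q.1, fun i => if i ∈ (insert j0 ∅ : Finset ι) then q.1 + q.2 else 0)) ?_ ?_
      · intro x
        simp [Sp]
      · intro x
        simp only [Prod.mk.injEq, true_and]
        funext i
        by_cases hi : i = j0
        · subst hi; simp [Sp]
        · simp [hi, Sp]
    have e4 : H (pl p) (Sp σ (insert j0 ∅)) = H (pl p) (fun x : ι → V => x j0 + x (σ j0)) := by
      refine H_eq hw (fun q => q j0)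
        (fun q => fun i => if i ∈ (insert j0 ∅ : Finset ι) then q else 0) ?_ ?_
      · intro x
        simp [Sp]
      · intro x
        funext i
        by_cases hi : i = j0
        · subst hi; simp [Sp]
        · simp [hi, Sp]
    rw [e3, e4, e1, e2, hI.H hw]
    have c1 : H (pl p) (fun x : ι → V => x j0) = ent (p j0) := by
      unfold H; rw [push_coord hp]
    have c2 : H (pl p) (fun x : ι → V => x (σ j0)) = ent (p (σ j0)) := by
      unfold H; rw [push_coord hp]
    have c3 : H (pl p) (fun x : ι → V => x j0 + x (σ j0)) = D2 p₁ p₂ + (ent p₁ + ent p₂) / 2 := by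
      rcases F.hp j0 F.h0 with ⟨h1, h2⟩ | ⟨h1, h2⟩
      · exact H_sum_basic hI (by rw [push_coord hp, h1]) (by rw [push_coord hp, h2])
      · rw [H_sum_basic hI (by rw [push_coord hp, h1]) (by rw [push_coord hp, h2]), D2_comm]
        ring
    have c4 : ent (p j0) + ent (p (σ j0)) = ent p₁ + ent p₂ := by
      rcases F.hp j0 F.h0 with ⟨h1, h2⟩ | ⟨h1, h2⟩
      · rw [h1, h2]
      · rw [h1, h2]; ring
    have c5 : ent (p j0) + ent (p (σ j0)) - ent p₁ - ent p₂ = 0 := by linarith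
    rw [c1, c2, c3, c5, mul_zero]
    linarith
  | insert j s hjs ih =>
    have hs' : s ⊆ J := fun i hi => hs (Finset.mem_insert_of_mem hi)
    have hj' : j0 ∉ s := fun hc => hj (Finset.mem_insert_of_mem hc)
    have hjJ : j ∈ J := hs (Finset.mem_insert_self j s)
    have hne : j ≠ j0 := by
      intro hc
      exact hj (hc ▸ Finset.mem_insert_self j s)
    have ih' := ih hs' hj'
    set s0 := insert j0 s with hs0
    have hs0J : s0 ⊆ J := by
      intro i hi
      rcases Finset.mem_insert.1 hi with hi | hi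
      · rw [hi]; exact F.h0
      · exact hs' hi
    have hjs0 : j ∉ s0 := by
      intro hc
      rcases Finset.mem_insert.1 hc with hc | hc
      · exact hne hc
      · exact hjs hc
    have hins : insert j0 (insert j s) = insert j s0 := by
      rw [hs0, Finset.insert_comm]
    rw [hins]
    have z1 : Zf φ (insert j s0) = fun x => φ j (x j) + Zf φ s0 x := by
      funext x
      unfold Zf
      rw [Finset.sum_insert hjs0]
    have z2 : Zs φ σ (insert j s0) = fun x => φ j (x (σ j)) + Zs φ σ s0 x := by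
      funext x
      unfold Zs
      rw [Finset.sum_insert hjs0]
    -- independence
    have iS : Ind (pl p) (fun x : ι → V => (x j, x (σ j)))
        (fun x => (Zf φ s0 x, Zs φ σ s0 x, Sp σ s0 x)) := by
      refine ind_pl hp {i | i = j ∨ i = σ j} _ _ ?_ ?_
      · intro x y hxy
        simp only [Prod.mk.injEq]
        exact ⟨hxy j (Or.inl rfl), hxy (σ j) (Or.inr rfl)⟩
      · intro x y hxy
        have k1 : ∀ i ∈ s0, x i = y i := by
          intro i hi
          refine hxy i ?_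
          intro hc
          rcases hc with hc | hc
          · exact hjs0 (hc ▸ hi)
          · exact F.hJ j hjJ (hc ▸ hs0J hi)
        have k2 : ∀ i ∈ s0, x (σ i) = y (σ i) := by
          intro i hi
          refine hxy (σ i) ?_
          intro hc
          rcases hc with hc | hc
          · exact F.hJ i (hs0J hi) (hc.symm ▸ hjJ)
          · exact hjs0 (σ.injective hc ▸ hi)
        simp only [Prod.mk.injEq]
        refine ⟨?_, ?_, ?_⟩
        · exact Finset.sum_congr rfl fun i hi => by rw [k1 i hi]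
        · exact Finset.sum_congr rfl fun i hi => by rw [k2 i hi]
        · funext i
          unfold Sp
          by_cases hi : i ∈ s0
          · simp only [hi, if_true, k1 i hi, k2 i hi]
          · simp only [hi, if_false]
    have i0 : Ind (pl p) (fun x : ι → V => (x j, Zf φ s0 x)) (fun x => (x (σ j), Zs φ σ s0 x)) := by
      refine ind_pl hp {i | i ∈ J} _ _ ?_ ?_
      · intro x y hxy
        simp only [Prod.mk.injEq]
        refine ⟨hxy j hjJ, ?_⟩
        exact Finset.sum_congr rfl fun i hi => by rw [hxy i (hs0J hi)]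
      · intro x y hxy
        simp only [Prod.mk.injEq]
        refine ⟨hxy (σ j) (F.hJ j hjJ), ?_⟩
        exact Finset.sum_congr rfl fun i hi => by rw [hxy (σ i) (F.hJ i (hs0J hi))]
    have hg : ∀ x : ι → V, Zf φ s0 x + Zs φ σ s0 x =
        (fun q : ι → V => ∑ i ∈ s0, φ i (q i)) (Sp σ s0 x) := fun x => Zf_add_Zs s0 x
    have hstep : H (pl p) (fun ω => (Zf φ s0 ω, Sp σ s0 ω)) - H (pl p) (Sp σ s0)
      + (1 - η) / 2 * ((H (pl p) (fun ω => φ j (ω j) + Zf φ s0 ω) - H (pl p) (Zf φ s0))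
        + (H (pl p) (fun ω => φ j (ω (σ j)) + Zs φ σ s0 ω) - H (pl p) (Zs φ σ s0))) ≤
      H (pl p) (fun ω => (φ j (ω j) + Zf φ s0 ω, (Sp σ s0 ω, ω j + ω (σ j))))
        - H (pl p) (fun ω => (Sp σ s0 ω, ω j + ω (σ j))) := by
      rcases F.hp j hjJ with ⟨h1, h2⟩ | ⟨h1, h2⟩
      · exact fib_step h hw (fun x : ι → V => x j) (fun x => x (σ j)) (Zf φ s0) (Zs φ σ s0) (φ j)
          (Sp σ s0) (fun q : ι → V => ∑ i ∈ s0, φ i (q i)) hg iS i0 (by rw [push_coord hp, h1])
          (by rw [push_coord hp, h2])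
      · exact fib_step h.symm hw (fun x : ι → V => x j) (fun x => x (σ j)) (Zf φ s0) (Zs φ σ s0)
          (φ j) (Sp σ s0) (fun q : ι → V => ∑ i ∈ s0, φ i (q i)) hg iS i0
          (by rw [push_coord hp, h1]) (by rw [push_coord hp, h2])
    have e1 : H (pl p) (fun ω => (φ j (ω j) + Zf φ s0 ω, (Sp σ s0 ω, ω j + ω (σ j)))) =
        H (pl p) (fun x => (Zf φ (insert j s0) x, Sp σ (insert j s0) x)) := by
      rw [z1]
      refine H_eq hw (fun q => (q.1, fun i => if i = j then q.2.2 else q.2.1 i))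
        (fun q => (q.1, (fun i => if i ∈ s0 then q.2 i else 0, q.2 j))) ?_ ?_
      · intro x
        simp only [Prod.mk.injEq, true_and]
        funext i
        by_cases hi : i = j
        · subst hi; simp [Sp]
        · simp [Sp, hi]
      · intro x
        simp only [Prod.mk.injEq, true_and]
        constructor
        · funext i
          by_cases hi : i ∈ s0
          · simp [Sp, hi]
          · simp [Sp, hi]
        · simp [Sp]
    have e2 : H (pl p) (fun ω => (Sp σ s0 ω, ω j + ω (σ j))) =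
        H (pl p) (Sp σ (insert j s0)) := by
      refine H_eq hw (fun q => (fun i => if i = j then q.2 else q.1 i))
        (fun q => (fun i => if i ∈ s0 then q i else 0, q j)) ?_ ?_
      · intro x
        funext i
        by_cases hi : i = j
        · subst hi; simp [Sp]
        · simp [Sp, hi]
      · intro x
        simp only [Prod.mk.injEq]
        constructor
        · funext i
          by_cases hi : i ∈ s0
          · simp [Sp, hi]
          · simp [Sp, hi]
        · simp [Sp]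
    rw [e1, e2] at hstep
    rw [z1, z2]
    rw [z1] at hstep
    nlinarith [hstep, ih']

/-- `star` for the whole of `J` -/
theorem star' (h : Mn η μ₀ p₁ p₂) (hp : ∀ i, Law (p i)) (F : Flip p₁ p₂ p φ σ J j0) :
    (ent p₁ + ent p₂) / 2 - D2 p₁ p₂
      + (1 - η) / 2 * (H (pl p) (Zf φ J) + H (pl p) (Zs φ σ J) - ent p₁ - ent p₂) ≤
    H (pl p) (fun x => (Zf φ J x, Sp σ J x)) - H (pl p) (Sp σ J) := by
  have h1 := star h hp F (J.erase j0) (Finset.erase_subset _ _) (Finset.notMem_erase _ _)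
  rwa [Finset.insert_erase F.h0] at h1

theorem ind_cols (hp : ∀ i, Law (p i)) (F : Flip p₁ p₂ p φ σ J j0) :
    Ind (pl p) (Zf φ J) (Zs φ σ J) := by
  refine ind_pl hp {i | i ∈ J} _ _ ?_ ?_
  · intro x y hxy
    exact Finset.sum_congr rfl fun i hi => by rw [hxy i hi]
  · intro x y hxy
    exact Finset.sum_congr rfl fun i hi => by rw [hxy (σ i) (F.hJ i hi)]

theorem H_col_W (hp : ∀ i, Law (p i)) (F : Flip p₁ p₂ p φ σ J j0) :
    H (pl p) (fun x => (Zf φ J x, Zf φ J x + Zs φ σ J x)) =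
      H (pl p) (Zf φ J) + H (pl p) (Zs φ σ J) := by
  have hw : Law (pl p) := law_pl hp
  have a1 : H (pl p) (fun x => (Zf φ J x, Zf φ J x + Zs φ σ J x)) =
      H (pl p) (fun x => (Zf φ J x, Zs φ σ J x)) :=
    H_eq hw (fun q => (q.1, q.2 - q.1)) (fun q => (q.1, q.1 + q.2))
      (fun ω => by simp) (fun ω => by simp)
  rw [a1, (ind_cols hp F).H hw]

/-- data processing: `H(B|S) ≤ H(B|f(S))` -/
theorem cond_mono {Ω : Type*} [Fintype Ω] {w : Ω → ℝ} (hw : Law w) (B : Ω → α) (S : Ω → β)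
    (f : β → γ) :
    H w (fun ω => (B ω, S ω)) - H w S ≤
      H w (fun ω => (B ω, f (S ω))) - H w (fun ω => f (S ω)) := by
  have h1 := H_submod hw B S (fun ω => f (S ω))
  have h2 : H w (fun ω => (B ω, S ω, f (S ω))) = H w (fun ω => (B ω, S ω)) :=
    H_eq hw (fun q => (q.1, q.2.1)) (fun q => (q.1, q.2, f q.2)) (fun _ => rfl) (fun _ => rfl)
  have h3 : H w (fun ω => (S ω, f (S ω))) = H w S :=
    H_eq hw (fun q => q.1) (fun q => (q, f q)) (fun _ => rfl) (fun _ => rfl)
  rw [h2, h3] at h1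
  linarith

/-- upper bound of the doubling of a column -/
theorem D_upper (h : Mn η μ₀ p₁ p₂) (hp : ∀ i, Law (p i)) (F : Flip p₁ p₂ p φ σ J j0) :
    H (pl p) (fun x => Zf φ J x + Zs φ σ J x) ≤
      D2 p₁ p₂ + (1 + η) / 2 * (H (pl p) (Zf φ J) + H (pl p) (Zs φ σ J))
        - η * ((ent p₁ + ent p₂) / 2) := by
  have hw : Law (pl p) := law_pl hp
  have h1 := star' h hp F
  have h2 := cond_mono hw (Zf φ J) (Sp σ J) (fun q : ι → V => ∑ i ∈ J, φ i (q i))
  have h3 : (fun x : ι → V => ∑ i ∈ J, φ i (Sp σ J x i)) = fun x => Zf φ J x + Zs φ σ J x := by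
    funext x
    exact (Zf_add_Zs J x).symm
  have h4 : (fun x : ι → V => (Zf φ J x, ∑ i ∈ J, φ i (Sp σ J x i))) =
      fun x => (Zf φ J x, Zf φ J x + Zs φ σ J x) := by
    funext x
    rw [Zf_add_Zs J x]
  rw [h3, h4, H_col_W hp F] at h2
  nlinarith [h1, h2]

/-- the law of a sum containing a basic variable is close to `μ₀` -/
theorem E0_sum {Ω : Type*} [Fintype Ω] {w : Ω → ℝ} (hw : Law w) (h0 : Law μ₀) (Y Z : Ω → V)
    (hYZ : Ind w Y Z) :
    ent (conv μ₀ (push w (fun ω => Y ω + Z ω))) ≤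
      ent (conv μ₀ (push w Y)) + H w (fun ω => Y ω + Z ω) - H w Y := by
  have h1 := kvm h0 hw Y Z (hYZ.H hw)
  rwa [E0_push h0 hw, E0_push h0 hw] at h1

theorem Zf_split (h0 : j0 ∈ J) (hφ : φ j0 = AddMonoidHom.id V) :
    Zf φ J = fun x => x j0 + Zf φ (J.erase j0) x := by
  funext x
  unfold Zf
  rw [← Finset.add_sum_erase J _ h0, hφ]
  rfl

theorem Zs_split (h0 : j0 ∈ J) (hφ : φ j0 = AddMonoidHom.id V) :
    Zs φ σ J = fun x => x (σ j0) + Zs φ σ (J.erase j0) x := by
  funext x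
  unfold Zs
  rw [← Finset.add_sum_erase J _ h0, hφ]
  rfl

theorem E0_Zf (h0' : Law μ₀) (hp : ∀ i, Law (p i)) (h0 : j0 ∈ J)
    (hφ : φ j0 = AddMonoidHom.id V) :
    ent (conv μ₀ (push (pl p) (Zf φ J))) ≤
      ent (conv μ₀ (p j0)) + H (pl p) (Zf φ J) - ent (p j0) := by
  have hw : Law (pl p) := law_pl hp
  have hI : Ind (pl p) (fun x : ι → V => x j0) (Zf φ (J.erase j0)) := by
    refine ind_pl hp {j0} _ _ ?_ ?_
    · intro x y hxy
      exact hxy j0 rfl
    · intro x y hxy
      refine Finset.sum_congr rfl fun i hi => ?_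
      rw [hxy i]
      intro hc
      exact (Finset.mem_erase.1 hi).1 hc
  have h1 := E0_sum hw h0' _ _ hI
  have h2 : H (pl p) (fun x : ι → V => x j0) = ent (p j0) := by
    unfold H; rw [push_coord hp]
  rw [h2, push_coord hp] at h1
  rw [Zf_split h0 hφ]
  exact h1

theorem E0_Zs (h0' : Law μ₀) (hp : ∀ i, Law (p i)) (h0 : j0 ∈ J)
    (hφ : φ j0 = AddMonoidHom.id V) :
    ent (conv μ₀ (push (pl p) (Zs φ σ J))) ≤
      ent (conv μ₀ (p (σ j0))) + H (pl p) (Zs φ σ J) - ent (p (σ j0)) := by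
  have hw : Law (pl p) := law_pl hp
  have hI : Ind (pl p) (fun x : ι → V => x (σ j0)) (Zs φ σ (J.erase j0)) := by
    refine ind_pl hp {σ j0} _ _ ?_ ?_
    · intro x y hxy
      exact hxy (σ j0) rfl
    · intro x y hxy
      refine Finset.sum_congr rfl fun i hi => ?_
      rw [hxy (σ i)]
      intro hc
      exact (Finset.mem_erase.1 hi).1 (σ.injective hc)
  have h1 := E0_sum hw h0' _ _ hI
  have h2 : H (pl p) (fun x : ι → V => x (σ j0)) = ent (p (σ j0)) := by
    unfold H; rw [push_coord hp]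
  rw [h2, push_coord hp] at h1
  rw [Zs_split h0 hφ]
  exact h1

/-- lower bound of the doubling of a column -/
theorem D_lower (h : Mn η μ₀ p₁ p₂) (hp : ∀ i, Law (p i)) (F : Flip p₁ p₂ p φ σ J j0) :
    D2 p₁ p₂ + (1 - η) / 2 * (H (pl p) (Zf φ J) + H (pl p) (Zs φ σ J))
        + η * ((ent p₁ + ent p₂) / 2) ≤
    H (pl p) (fun x => Zf φ J x + Zs φ σ J x) := by
  have hw : Law (pl p) := law_pl hp
  have h1 := h.min _ _ (law_push hw (Zf φ J)) (law_push hw (Zs φ σ J))
  have h2 := E0_Zf h.l0 hp F.h0 F.hφ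
  have h3 := E0_Zs (σ := σ) h.l0 hp F.h0 F.hφ
  have h4 : H (pl p) (fun x => Zf φ J x + Zs φ σ J x) =
      ent (conv (push (pl p) (Zf φ J)) (push (pl p) (Zs φ σ J))) := by
    unfold H
    rw [(ind_cols hp F).push_add]
  have h5 := mul_le_mul_of_nonneg_left h2 h.pos
  have h6 := mul_le_mul_of_nonneg_left h3 h.pos
  have e1 : ent (push (pl p) (Zf φ J)) = H (pl p) (Zf φ J) := rfl
  have e2 : ent (push (pl p) (Zs φ σ J)) = H (pl p) (Zs φ σ J) := rfl
  unfold tauE at h1
  have d1 : ∀ μ ν : V → ℝ, D2 μ ν = ent (conv μ ν) - ent μ / 2 - ent ν / 2 := fun _ _ => rfl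
  rw [d1 μ₀, d1 μ₀, d1 μ₀, d1 μ₀, d1 (push _ _), e1, e2, ← h4] at h1
  rcases F.hp j0 F.h0 with ⟨a1, a2⟩ | ⟨a1, a2⟩
  · rw [a1] at h5
    rw [a2] at h6
    nlinarith [h1, h5, h6]
  · rw [a1] at h5
    rw [a2] at h6
    nlinarith [h1, h5, h6]

/-- near independence -/
theorem near_ind (h : Mn η μ₀ p₁ p₂) (hp : ∀ i, Law (p i)) (F : Flip p₁ p₂ p φ σ J j0)
    (f : (ι → V) → α) (W : (ι → V) → V) (hW : ∀ x, W x = Zf φ J x + Zs φ σ J x) :
    H (pl p) (fun x => (f (Sp σ J x), W x)) + H (pl p) (fun x => (Zf φ J x, W x))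
      - H (pl p) (fun x => (f (Sp σ J x), Zf φ J x, W x)) - H (pl p) W ≤
    η * (H (pl p) (Zf φ J) + H (pl p) (Zs φ σ J) - ent p₁ - ent p₂) := by
  have hw : Law (pl p) := law_pl hp
  have hW' : W = fun x => Zf φ J x + Zs φ σ J x := funext hW
  subst hW'
  have h1 := star' h hp F
  have h2 := cond_mono hw (Zf φ J) (Sp σ J)
    (fun q : ι → V => (f q, ∑ i ∈ J, φ i (q i)))
  have h3 : (fun x : ι → V => (f (Sp σ J x), ∑ i ∈ J, φ i (Sp σ J x i))) =
      fun x => (f (Sp σ J x), Zf φ J x + Zs φ σ J x) := by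
    funext x
    rw [Zf_add_Zs J x]
  have h4 : (fun x : ι → V => (Zf φ J x, f (Sp σ J x), ∑ i ∈ J, φ i (Sp σ J x i))) =
      fun x => (Zf φ J x, f (Sp σ J x), Zf φ J x + Zs φ σ J x) := by
    funext x
    rw [Zf_add_Zs J x]
  have h5 : H (pl p) (fun x : ι → V => (Zf φ J x, f (Sp σ J x), Zf φ J x + Zs φ σ J x)) =
      H (pl p) (fun x => (f (Sp σ J x), Zf φ J x, Zf φ J x + Zs φ σ J x)) :=
    H_eq hw (fun q => (q.2.1, q.1, q.2.2)) (fun q => (q.2.1, q.1, q.2.2)) (fun _ => rfl)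
      (fun _ => rfl)
  rw [h3, h4, h5] at h2
  have h6 := D_lower h hp F
  have h7 := H_col_W hp F
  rw [h7]
  nlinarith [h1, h2, h6]

end Pool.Agent.TH404.Tor
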